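import Pool.Agent.H22.Tn5

namespace Pool.Agent.Results.MP_ddb4d7_al.NotClosed

/-- A Fitting class: a nonempty class of finite soluble groups closed under isomorphism,
normal subgroups and products of two normal subgroups. -/
def FittingClass (X : (G : Type) → [Group G] → Prop) : Prop :=
  (∃ (G : Type) (_ : Group G), X G) ∧
  (∀ (G : Type) [Group G], X G → Finite G ∧ Group.IsSolvable G) ∧
  (∀ (G H : Type) [Group G] [Group H], Nonempty (G ≃* H) → X G → X H) ∧
  (∀ (G : Type) [Group G] (N : Subgroup G), N.Normal → X G → X N) ∧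
  (∀ (G : Type) [Group G] [Finite G] (N M : Subgroup G), N.Normal → M.Normal → X N → X M →
    X (N ⊔ M : Subgroup G))

/-- Metanilpotent: a nilpotent normal subgroup with nilpotent quotient. -/
def Metanilpotent (G : Type) [Group G] : Prop :=
  ∃ (N : Subgroup G) (_ : N.Normal), Group.IsNilpotent N ∧ Group.IsNilpotent (G ⧸ N)

theorem result : ∃ (G : Type) (_ : Group G) (_ : Finite G) (Z : Subgroup G) (_ : Z.Normal)
    (X : (G : Type) → [Group G] → Prop), Metanilpotent G ∧
    Z ≤ Subgroup.center G ⊓ frattini G ∧ FittingClass X ∧ X (G ⧸ Z) ∧ ¬ X G := by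
  let l : GaloisField 3 2 →+ ZMod 3 := (Algebra.trace (ZMod 3) (GaloisField 3 2)).toAddMonoidHom
  have hl : Function.Surjective l := Algebra.trace_surjective (ZMod 3) (GaloisField 3 2)
  have s := Function.surjective_id (α := GaloisField 3 2)
  have a : H22.Tn.St 3 (H22.Tn.Ts l) := by simpa using H22.Tn.st_ts hl
  refine ⟨H22.Tn.Ts (AddMonoidHom.id (GaloisField 3 2)), inferInstance, inferInstance,
    (H22.Tn.pr l).ker, inferInstance, H22.Tn.St 3, H22.Tn.pq_meta (H22.Tn.st_ts s).2.1,
    H22.Tn.pr_ker l, ⟨⟨_, _, a⟩, fun G _ h => have := h.1; ⟨this, h.2.1.solv⟩,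
      fun _ _ _ _ ⟨e⟩ h => h.iso e, fun _ _ N _ h => h.sub (by norm_num) N,
      fun _ _ _ _ _ _ _ h k => h.sup k⟩,
    a.iso (QuotientGroup.quotientKerEquivOfSurjective _ (H22.Tn.pr_surj hl)).symm, fun h => ?_⟩
  have := (H22.Tn.st_eq s h).trans (GaloisField.card 3 2 (by norm_num))
  omega

end Pool.Agent.Results.MP_ddb4d7_al.NotClosed
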